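import Mathlib
import Pool.Agent.V11278.Upcycle

/-!
# Universal partial cycles of every diamondicity

For every `k ≥ 1` there is a non-trivial universal partial cycle over four letters, for words of length
`4 k`, each of whose windows has exactly `k` diamonds.
-/

set_option autoImplicit false

namespace Pool.Agent.Results.MP_f32aed_co.HigherDiamondicity

/-- The window at position `i` of the cyclic partial word `u` (`none` is the diamond) covers `w`. -/
def Covers {a n N : ℕ} (u : ZMod N → Option (Fin a)) (i : ZMod N) (w : Fin n → Fin a) : Prop :=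
  ∀ j : Fin n, u (i + (j.val : ZMod N)) = none ∨ u (i + (j.val : ZMod N)) = some (w j)

/-- `u` is a universal partial cycle for the words of length `n`: every word is covered by exactly one
window. -/
def IsUpcycle {a N : ℕ} (n : ℕ) (u : ZMod N → Option (Fin a)) : Prop :=
  0 < N ∧ ∀ w : Fin n → Fin a, ∃! i : ZMod N, Covers u i w

/-- `u` contains a diamond and a letter. -/
def IsNontrivial {a N : ℕ} (u : ZMod N → Option (Fin a)) : Prop :=
  (∃ i, u i = none) ∧ ∃ i, u i ≠ none

/-- Every window of length `n` of `u` contains exactly `d` diamonds. -/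
def HasDiamondicity {a N : ℕ} (n d : ℕ) (u : ZMod N → Option (Fin a)) : Prop :=
  ∀ i : ZMod N, (Finset.univ.filter fun j : Fin n => u (i + (j.val : ZMod N)) = none).card = d

/-- For every `k ≥ 1` there is a non-trivial upcycle over four letters for words of length `4 k` with
diamondicity `k`; in particular there are non-trivial upcycles with diamondicity greater than `1`. -/
theorem result (k : ℕ) (hk : 1 ≤ k) : ∃ (N : ℕ) (u : ZMod N → Option (Fin 4)),
    IsUpcycle (4 * k) u ∧ IsNontrivial u ∧ HasDiamondicity (4 * k) k u := by
  obtain ⟨N, u, hN, hu, hd⟩ := Pool.Agent.V11278.Upcycle.main_fin k hk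
  refine ⟨N, u, ⟨hN, hu⟩, ⟨?_, ?_⟩, hd⟩
  · by_contra h
    push Not at h
    have h1 := hd 0
    rw [Finset.filter_false_of_mem (fun j _ => h _), Finset.card_empty] at h1
    omega
  · by_contra h
    push Not at h
    have h1 := hd 0
    rw [Finset.filter_true_of_mem (fun j _ => h _), Finset.card_univ, Fintype.card_fin] at h1
    omega

end Pool.Agent.Results.MP_f32aed_co.HigherDiamondicity
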